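import Mathlib

/-! Block `T6` (project PENT, version 3; helper54). -/

set_option autoImplicit false

namespace Pool.Agent.PENT

theorem t6_a : (2 : ℝ) ^ (-(1 / 20) : ℝ) ≤ 0.966 := by
  have h1 : (1 / 2 : ℝ) ≤ (0.966 : ℝ) ^ (20 : ℕ) := by norm_num
  have h0 : (2 : ℝ) ^ (-(1 / 20) : ℝ) = (1 / 2 : ℝ) ^ (1 / 20 : ℝ) := by
    rw [Real.rpow_neg (by norm_num), one_div 2, Real.inv_rpow (by norm_num)]
  rw [h0]
  calc (1 / 2 : ℝ) ^ (1 / 20 : ℝ) ≤ ((0.966 : ℝ) ^ (20 : ℕ)) ^ (1 / 20 : ℝ) :=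
        Real.rpow_le_rpow (by norm_num) h1 (by norm_num)
    _ = 0.966 := by
        rw [← Real.rpow_natCast, ← Real.rpow_mul (by norm_num)]
        norm_num

theorem t6_b : (4 : ℝ) ^ (-(1 / 20) : ℝ) = ((2 : ℝ) ^ (-(1 / 20) : ℝ)) ^ 2 := by
  have h : (4 : ℝ) = 2 * 2 := by norm_num
  rw [h, Real.mul_rpow (by norm_num) (by norm_num), pow_two]

/-- block T6: the margin of the diagonal -/
theorem diag_num_pr : -5 + (2 : ℝ) ^ (-(1 / 20) : ℝ) + 3 / 2 * (4 : ℝ) ^ (-(1 / 20) : ℝ) +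
    1 / 100 * (1 + (2 : ℝ) ^ (-(1 / 20) : ℝ) / 2 - 3 / 2 * (4 : ℝ) ^ (-(1 / 20) : ℝ)) ≤
    -(5 / 2) * (1 + 1 / 20) := by
  rw [t6_b]
  have h1 := t6_a
  have h0 : (0 : ℝ) ≤ (2 : ℝ) ^ (-(1 / 20) : ℝ) := Real.rpow_nonneg (by norm_num) _
  set a := (2 : ℝ) ^ (-(1 / 20) : ℝ) with ha
  have h2 : a ^ 2 ≤ 0.966 ^ 2 := pow_le_pow_left₀ h0 h1 2
  norm_num at h2 ⊢
  linarith

end Pool.Agent.PENT
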